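import Pool.Agent.Helper10.RS.Goals

open Finset

namespace Pool.Agent.Helper12.RS

open Pool.Agent.Helper10.RS

/-! ### Multisets of cycle lengths -/

theorem dvd_mlcm {l : ℕ} (hl : l.Prime) (s : Multiset ℕ) :
    l ∣ s.lcm ↔ ∃ k ∈ s, l ∣ k := by
  induction s using Multiset.induction_on with
  | empty => simp [hl.one_lt.ne']
  | cons a s ih =>
    rw [Multiset.lcm_cons]
    have h1 : GCDMonoid.lcm a s.lcm = Nat.lcm a s.lcm := rfl
    rw [h1]
    have h2 : l ∣ Nat.lcm a s.lcm ↔ l ∣ a ∨ l ∣ s.lcm := by
      constructor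
      · intro h
        have : l ∣ a * s.lcm := h.trans (Nat.lcm_dvd_mul a s.lcm)
        exact hl.dvd_mul.mp this
      · rintro (h | h)
        · exact h.trans (Nat.dvd_lcm_left _ _)
        · exact h.trans (Nat.dvd_lcm_right _ _)
    rw [h2, ih]
    simp

open Classical in
theorem prod_ite (l : ℕ) (u : ℕ → ℚ) (s : Multiset ℕ) :
    (s.map (fun k => if l ∣ k then (0 : ℚ) else u k)).prod =
      if (∃ k ∈ s, l ∣ k) then 0 else (s.map u).prod := by
  induction s using Multiset.induction_on with
  | empty => simp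
  | cons a s ih =>
    rw [Multiset.map_cons, Multiset.prod_cons, ih, Multiset.map_cons, Multiset.prod_cons]
    by_cases ha : l ∣ a
    · have : ∃ k ∈ a ::ₘ s, l ∣ k := ⟨a, Multiset.mem_cons_self a s, ha⟩
      rw [if_pos ha, if_pos this, zero_mul]
    · rw [if_neg ha]
      by_cases hs : ∃ k ∈ s, l ∣ k
      · obtain ⟨k, hk, hlk⟩ := hs
        have : ∃ k ∈ a ::ₘ s, l ∣ k := ⟨k, Multiset.mem_cons_of_mem hk, hlk⟩
        rw [if_pos ⟨k, hk, hlk⟩, if_pos this, mul_zero]
      · have : ¬ ∃ k ∈ a ::ₘ s, l ∣ k := by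
          rintro ⟨k, hk, hlk⟩
          rcases Multiset.mem_cons.mp hk with rfl | hk
          · exact ha hlk
          · exact hs ⟨k, hk, hlk⟩
        rw [if_neg hs, if_neg this]

theorem exists_parts_iff {n l : ℕ} (hl : l.Prime) (σ : Equiv.Perm (Fin n)) :
    (∃ k ∈ σ.partition.parts, l ∣ k) ↔ l ∣ orderOf σ := by
  rw [← Equiv.Perm.lcm_cycleType, dvd_mlcm hl, Equiv.Perm.parts_partition]
  constructor
  · rintro ⟨k, hk, hlk⟩
    rcases Multiset.mem_add.mp hk with hk | hk
    · exact ⟨k, hk, hlk⟩
    · rw [Multiset.eq_of_mem_replicate hk] at hlk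
      exact absurd (Nat.dvd_one.mp hlk) hl.one_lt.ne'
  · rintro ⟨k, hk, hlk⟩
    exact ⟨k, Multiset.mem_add.mpr (Or.inl hk), hlk⟩

theorem prod_sign_aux (s : Multiset ℕ) :
    (s.map (fun k => (-1 : ℚ) ^ (k + 1))).prod = (-1 : ℚ) ^ (s.sum + Multiset.card s) := by
  induction s using Multiset.induction_on with
  | empty => simp
  | cons a s ih =>
    rw [Multiset.map_cons, Multiset.prod_cons, ih, Multiset.sum_cons, Multiset.card_cons,
      ← pow_add]
    congr 1
    ring

theorem prod_sign {n : ℕ} (σ : Equiv.Perm (Fin n)) :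
    (σ.partition.parts.map (fun k => (-1 : ℚ) ^ (k + 1))).prod =
      ((Equiv.Perm.sign σ : ℤˣ) : ℤ) := by
  rw [Equiv.Perm.parts_partition, Multiset.map_add, Multiset.prod_add, prod_sign_aux,
    Multiset.map_replicate, Multiset.prod_replicate, Equiv.Perm.sign_of_cycleType]
  simp

/-! ### The weights -/

/-- weights of the regular permutations -/
def w1 (l k : ℕ) : ℚ := if l ∣ k then 0 else 1

/-- signed weights -/
def w2 (l k : ℕ) : ℚ := if l ∣ k then 0 else (-1) ^ (k + 1)

theorem prod_w1 {n l : ℕ} (hl : l.Prime) (σ : Equiv.Perm (Fin n)) :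
    (σ.partition.parts.map (w1 l)).prod = if l ∣ orderOf σ then 0 else 1 := by
  have h := prod_ite l (fun _ => (1 : ℚ)) σ.partition.parts
  have h' : (fun k => if l ∣ k then (0 : ℚ) else (fun _ => (1 : ℚ)) k) = w1 l := rfl
  rw [h'] at h
  rw [h]
  by_cases hd : l ∣ orderOf σ
  · rw [if_pos hd, if_pos ((exists_parts_iff hl σ).mpr hd)]
  · rw [if_neg hd, if_neg (fun h => hd ((exists_parts_iff hl σ).mp h))]
    simp

theorem prod_w2 {n l : ℕ} (hl : l.Prime) (σ : Equiv.Perm (Fin n)) :
    (σ.partition.parts.map (w2 l)).prod =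
      if l ∣ orderOf σ then 0 else (((Equiv.Perm.sign σ : ℤˣ) : ℤ) : ℚ) := by
  have h := prod_ite l (fun k => (-1 : ℚ) ^ (k + 1)) σ.partition.parts
  have h' : (fun k => if l ∣ k then (0 : ℚ) else (fun k => (-1 : ℚ) ^ (k + 1)) k) = w2 l := rfl
  rw [h'] at h
  rw [h]
  by_cases hd : l ∣ orderOf σ
  · rw [if_pos hd, if_pos ((exists_parts_iff hl σ).mpr hd)]
  · rw [if_neg hd, if_neg (fun h => hd ((exists_parts_iff hl σ).mp h)), prod_sign]

/-! ### The values of `aa` and `bb` -/

theorem aa_small {l n : ℕ} (h : n < l) : aa l n = 1 := by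
  rw [aa, Nat.div_eq_of_lt h]; simp

/-- `aa` with `q` in place of `n / l` -/
def AA (l q : ℕ) : ℚ := ∏ i ∈ Icc 1 q, (1 - 1 / ((l : ℚ) * i))

/-- the value of `bb` on the support -/
def BB (l q : ℕ) : ℚ := ∏ i ∈ Icc 1 q, (-(1 + (l : ℚ) * (i - 1)) / ((l : ℚ) * i))

theorem aa_eq (l n : ℕ) : aa l n = AA l (n / l) := rfl

theorem bb_eq (l n : ℕ) : bb l n = if n % l ≤ 1 then BB l (n / l) else 0 := rfl

theorem AA_succ {l q : ℕ} (hl : 0 < l) :
    ((l : ℚ) * (q + 1)) * AA l (q + 1) = ((l : ℚ) * (q + 1) - 1) * AA l q := by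
  rw [AA, Finset.prod_Icc_succ_top (by omega), ← AA]
  have hl' : (l : ℚ) ≠ 0 := by positivity
  have hq : ((q : ℚ) + 1) ≠ 0 := by positivity
  push_cast
  field_simp

theorem BB_succ {l q : ℕ} (hl : 0 < l) :
    ((l : ℚ) * (q + 1)) * BB l (q + 1) = -(1 + (l : ℚ) * q) * BB l q := by
  rw [BB, Finset.prod_Icc_succ_top (by omega), ← BB]
  have hl' : (l : ℚ) ≠ 0 := by positivity
  have hq : ((q : ℚ) + 1) ≠ 0 := by positivity
  push_cast
  field_simp
  ring

/-! ### The recursions -/

/-- The right hand side of the recursion. -/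
def FF (w a : ℕ → ℚ) (n : ℕ) : ℚ := ∑ k ∈ Icc 1 n, w k * a (n - k)

theorem FF_shift (w a : ℕ → ℚ) (l n : ℕ) :
    FF w a (n + l) = ∑ k ∈ Icc 1 l, w k * a (n + l - k) +
      ∑ k ∈ Icc 1 n, w (k + l) * a (n - k) := by
  rw [FF]
  have h : Icc 1 (n + l) = Icc 1 l ∪ Icc (l + 1) (n + l) := by
    ext k; simp only [mem_Icc, mem_union]; omega
  have hd : Disjoint (Icc 1 l) (Icc (l + 1) (n + l)) := by
    rw [Finset.disjoint_left]; intro k; simp only [mem_Icc]; omega
  rw [h, Finset.sum_union hd]
  congr 1
  refine (Finset.sum_bij (fun k _ => k + l) ?_ ?_ ?_ ?_).symm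
  · intro k hk; simp only [mem_Icc] at hk ⊢; omega
  · intro a _ b _ h; omega
  · intro k hk
    simp only [mem_Icc] at hk
    exact ⟨k - l, by simp only [mem_Icc]; omega, by omega⟩
  · intro k hk
    congr 2
    omega

theorem w1_add (l k : ℕ) : w1 l (k + l) = w1 l k := by
  unfold w1
  have : l ∣ k + l ↔ l ∣ k := by simp
  simp [this]

theorem w2_add {l : ℕ} (hodd : Odd l) (k : ℕ) : w2 l (k + l) = - w2 l k := by
  unfold w2
  have : l ∣ k + l ↔ l ∣ k := by simp
  by_cases h : l ∣ k
  · rw [if_pos (this.mpr h), if_pos h, neg_zero]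
  · rw [if_neg (fun h' => h (this.mp h')), if_neg h]
    have : k + l + 1 = (k + 1) + l := by ring
    rw [this, pow_add, hodd.neg_one_pow]
    ring

/-- the window sum for `aa`: values `n + 1, ..., n + l - 1` -/
theorem window_aa {l : ℕ} (hl : 0 < l) (q s : ℕ) (hs : s < l) :
    ∑ k ∈ Icc 1 l, w1 l k * aa l (q * l + s + l - k) =
      ((l : ℚ) - 1 - s) * AA l q + s * AA l (q + 1) := by
  have h : Icc 1 l = (Icc 1 s ∪ Icc (s + 1) (l - 1)) ∪ {l} := by
    ext k; simp only [mem_Icc, mem_union, mem_singleton]; omega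
  have hd1 : Disjoint (Icc 1 s ∪ Icc (s + 1) (l - 1)) {l} := by
    rw [Finset.disjoint_left]; intro k; simp only [mem_Icc, mem_union, mem_singleton]; omega
  have hd2 : Disjoint (Icc 1 s) (Icc (s + 1) (l - 1)) := by
    rw [Finset.disjoint_left]; intro k; simp only [mem_Icc]; omega
  rw [h, Finset.sum_union hd1, Finset.sum_union hd2, Finset.sum_singleton]
  have e1 : ∑ k ∈ Icc 1 s, w1 l k * aa l (q * l + s + l - k) = s * AA l (q + 1) := by
    have : ∀ k ∈ Icc 1 s, w1 l k * aa l (q * l + s + l - k) = AA l (q + 1) := by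
      intro k hk
      rw [mem_Icc] at hk
      have hw : w1 l k = 1 := by
        unfold w1
        rw [if_neg]
        intro hdv
        exact absurd (Nat.le_of_dvd (by omega) hdv) (by omega)
      have hq : (q * l + s + l - k) / l = q + 1 := by
        rw [Nat.div_eq_iff hl]
        constructor
        · have : (q + 1) * l = q * l + l := by ring
          omega
        · have : (q + 1) * l = q * l + l := by ring
          omega
      rw [hw, aa_eq, hq, one_mul]
    rw [Finset.sum_congr rfl this]
    simp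
  have e2 : ∑ k ∈ Icc (s + 1) (l - 1), w1 l k * aa l (q * l + s + l - k) =
      ((l : ℚ) - 1 - s) * AA l q := by
    have : ∀ k ∈ Icc (s + 1) (l - 1), w1 l k * aa l (q * l + s + l - k) = AA l q := by
      intro k hk
      rw [mem_Icc] at hk
      have hw : w1 l k = 1 := by
        unfold w1
        rw [if_neg]
        intro hdv
        exact absurd (Nat.le_of_dvd (by omega) hdv) (by omega)
      have hq : (q * l + s + l - k) / l = q := by
        rw [Nat.div_eq_iff hl]
        omega
      rw [hw, aa_eq, hq, one_mul]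
    rw [Finset.sum_congr rfl this, Finset.sum_const, Nat.card_Icc, nsmul_eq_mul]
    congr 1
    have : l - 1 + 1 - (s + 1) = l - 1 - s := by omega
    rw [this, Nat.cast_sub (by omega), Nat.cast_sub (by omega)]
    simp
  have e3 : w1 l l * aa l (q * l + s + l - l) = 0 := by
    unfold w1; simp
  rw [e1, e2, e3]
  ring

theorem aa_rec {l : ℕ} (hl : 0 < l) (n : ℕ) : (n : ℚ) * aa l n = FF (w1 l) (aa l) n := by
  induction n using Nat.strong_induction_on with
  | _ m ih =>
    rcases Nat.lt_or_ge m l with hm | hm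
    · have : ∀ k ∈ Icc 1 m, w1 l k * aa l (m - k) = 1 := by
        intro k hk
        rw [mem_Icc] at hk
        have hw : w1 l k = 1 := by
          unfold w1
          rw [if_neg]
          intro hdv
          exact absurd (Nat.le_of_dvd (by omega) hdv) (by omega)
        rw [hw, aa_small (by omega), one_mul]
      rw [FF, Finset.sum_congr rfl this, aa_small hm]
      simp
    · obtain ⟨n, rfl⟩ : ∃ n, m = n + l := ⟨m - l, by omega⟩
      have ihn := ih n (by omega)
      rw [FF_shift]
      have h2 : ∑ k ∈ Icc 1 n, w1 l (k + l) * aa l (n - k) = FF (w1 l) (aa l) n := by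
        rw [FF]; exact Finset.sum_congr rfl (fun k _ => by rw [w1_add])
      rw [h2, ← ihn]
      obtain ⟨q, s, hs, rfl⟩ : ∃ q s, s < l ∧ n = q * l + s :=
        ⟨n / l, n % l, Nat.mod_lt _ hl, by rw [mul_comm]; exact (Nat.div_add_mod n l).symm⟩
      rw [window_aa hl q s hs]
      have hq1 : (q * l + s + l) / l = q + 1 := by
        rw [Nat.div_eq_iff hl]
        constructor
        · have : (q + 1) * l = q * l + l := by ring
          omega
        · have : (q + 1) * l = q * l + l := by ring
          omega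
      have hq0 : (q * l + s) / l = q := by
        rw [Nat.div_eq_iff hl]
        omega
      rw [aa_eq, hq1, aa_eq, hq0]
      have := AA_succ (l := l) (q := q) hl
      push_cast
      linear_combination this

theorem bb_val {l : ℕ} (q s : ℕ) (hs : s < l) :
    bb l (q * l + s) = if s ≤ 1 then BB l q else 0 := by
  have hl : 0 < l := by omega
  have h1 : (q * l + s) % l = s := by
    rw [Nat.add_comm, Nat.add_mul_mod_self_right, Nat.mod_eq_of_lt hs]
  have h2 : (q * l + s) / l = q := by
    rw [Nat.div_eq_iff hl]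
    omega
  rw [bb_eq, h1, h2]

theorem window_bb {l : ℕ} (hl : 3 ≤ l) (hodd : Odd l) (q s : ℕ) (hs : s < l) :
    ∑ k ∈ Icc 1 l, w2 l k * bb l (q * l + s + l - k) =
      if s = 0 then - BB l q else if s = 1 then BB l (q + 1) else 0 := by
  have hw : ∀ k, 1 ≤ k → k < l → w2 l k = (-1) ^ (k + 1) := by
    intro k h1 h2
    unfold w2
    rw [if_neg]
    intro hdv
    exact absurd (Nat.le_of_dvd (by omega) hdv) (by omega)
  have hwl : w2 l l = 0 := by unfold w2; simp
  rcases Nat.lt_or_ge s 2 with hs2 | hs2
  · rcases Nat.lt_or_ge s 1 with hs1 | hs1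
    · have hs0 : s = 0 := by omega
      subst hs0
      rw [if_pos rfl]
      rw [Finset.sum_eq_single (l - 1)]
      · have e : q * l + 0 + l - (l - 1) = q * l + 1 := by omega
        rw [e, bb_val q 1 (by omega), hw (l - 1) (by omega) (by omega)]
        have e2 : l - 1 + 1 = l := by omega
        rw [e2, hodd.neg_one_pow]
        simp
      · intro k hk hne
        rw [mem_Icc] at hk
        rcases Nat.lt_or_ge k l with hkl | hkl
        · have e : q * l + 0 + l - k = q * l + (l - k) := by omega
          rw [e, bb_val q (l - k) (by omega), if_neg (by omega), mul_zero]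
        · have : k = l := by omega
          rw [this, hwl, zero_mul]
      · intro hn
        exact absurd (mem_Icc.mpr ⟨by omega, by omega⟩) hn
    · have hs0 : s = 1 := by omega
      subst hs0
      rw [if_neg (by omega), if_pos rfl]
      rw [Finset.sum_eq_single 1]
      · have e : q * l + 1 + l - 1 = (q + 1) * l + 0 := by
          have : (q + 1) * l = q * l + l := by ring
          omega
        rw [e, bb_val (q + 1) 0 (by omega), hw 1 (by omega) (by omega)]
        simp
      · intro k hk hne
        rw [mem_Icc] at hk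
        rcases Nat.lt_or_ge k l with hkl | hkl
        · have e : q * l + 1 + l - k = q * l + (l + 1 - k) := by omega
          rw [e, bb_val q (l + 1 - k) (by omega), if_neg (by omega), mul_zero]
        · have : k = l := by omega
          rw [this, hwl, zero_mul]
      · intro hn
        exact absurd (mem_Icc.mpr ⟨by omega, by omega⟩) hn
  · rw [if_neg (by omega), if_neg (by omega)]
    have hsub : ({s - 1, s} : Finset ℕ) ⊆ Icc 1 l := by
      intro k hk
      simp only [mem_insert, mem_singleton] at hk
      rw [mem_Icc]; omega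
    rw [← Finset.sum_subset hsub]
    · rw [Finset.sum_pair (by omega)]
      have e1 : q * l + s + l - (s - 1) = (q + 1) * l + 1 := by
        have : (q + 1) * l = q * l + l := by ring
        omega
      have e2 : q * l + s + l - s = (q + 1) * l + 0 := by
        have : (q + 1) * l = q * l + l := by ring
        omega
      rw [e1, e2, bb_val (q + 1) 1 (by omega), bb_val (q + 1) 0 (by omega),
        hw (s - 1) (by omega) (by omega), hw s (by omega) (by omega)]
      have e3 : s + 1 = (s - 1 + 1) + 1 := by omega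
      rw [e3, pow_succ (-1 : ℚ) (s - 1 + 1)]
      simp
    · intro k hk hnot
      rw [mem_Icc] at hk
      simp only [mem_insert, mem_singleton, not_or] at hnot
      rcases Nat.lt_or_ge k l with hkl | hkl
      · rcases Nat.lt_or_ge k s with hks | hks
        · have e : q * l + s + l - k = (q + 1) * l + (s - k) := by
            have : (q + 1) * l = q * l + l := by ring
            omega
          rw [e, bb_val (q + 1) (s - k) (by omega), if_neg (by omega), mul_zero]
        · have e : q * l + s + l - k = q * l + (l + s - k) := by omega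
          rw [e, bb_val q (l + s - k) (by omega), if_neg (by omega), mul_zero]
      · have : k = l := by omega
        rw [this, hwl, zero_mul]

theorem bb_rec {l : ℕ} (hl : 3 ≤ l) (hodd : Odd l) (n : ℕ) :
    (n : ℚ) * bb l n = FF (w2 l) (bb l) n := by
  have hl0 : 0 < l := by omega
  have hw : ∀ k, 1 ≤ k → k < l → w2 l k = (-1) ^ (k + 1) := by
    intro k h1 h2
    unfold w2
    rw [if_neg]
    intro hdv
    exact absurd (Nat.le_of_dvd (by omega) hdv) (by omega)
  have hB0 : BB l 0 = 1 := by simp [BB]
  induction n using Nat.strong_induction_on with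
  | _ m ih =>
    rcases Nat.lt_or_ge m l with hm | hm
    · have hb : ∀ j, j < l → bb l j = if j ≤ 1 then 1 else 0 := by
        intro j hj
        have := bb_val (l := l) 0 j hj
        rw [zero_mul, zero_add, hB0] at this
        exact this
      rcases Nat.lt_or_ge m 2 with h2 | h2
      · interval_cases m
        · simp [FF]
        · simp only [FF]
          rw [Icc_self, Finset.sum_singleton, hb 1 (by omega), hb (1 - 1) (by omega),
            hw 1 (by omega) (by omega)]
          simp
      · rw [FF, hb m hm, if_neg (by omega), mul_zero]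
        have hsub : ({m - 1, m} : Finset ℕ) ⊆ Icc 1 m := by
          intro k hk
          simp only [mem_insert, mem_singleton] at hk
          rw [mem_Icc]; omega
        rw [← Finset.sum_subset hsub]
        · rw [Finset.sum_pair (by omega)]
          rw [hb (m - (m - 1)) (by omega), hb (m - m) (by omega), if_pos (by omega),
            if_pos (by omega), hw (m - 1) (by omega) (by omega), hw m (by omega) (by omega)]
          have e3 : m + 1 = (m - 1 + 1) + 1 := by omega
          rw [e3, pow_succ (-1 : ℚ) (m - 1 + 1)]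
          simp
        · intro k hk hnot
          rw [mem_Icc] at hk
          simp only [mem_insert, mem_singleton, not_or] at hnot
          rw [hb (m - k) (by omega), if_neg (by omega), mul_zero]
    · obtain ⟨n, rfl⟩ : ∃ n, m = n + l := ⟨m - l, by omega⟩
      have ihn := ih n (by omega)
      rw [FF_shift]
      have h2 : ∑ k ∈ Icc 1 n, w2 l (k + l) * bb l (n - k) = - FF (w2 l) (bb l) n := by
        rw [FF, ← Finset.sum_neg_distrib]
        exact Finset.sum_congr rfl (fun k _ => by rw [w2_add hodd]; ring)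
      rw [h2, ← ihn]
      obtain ⟨q, s, hs, rfl⟩ : ∃ q s, s < l ∧ n = q * l + s :=
        ⟨n / l, n % l, Nat.mod_lt _ hl0, by rw [mul_comm]; exact (Nat.div_add_mod n l).symm⟩
      rw [window_bb hl hodd q s hs]
      have e : q * l + s + l = (q + 1) * l + s := by ring
      rw [e, bb_val (q + 1) s hs, bb_val q s hs]
      have := BB_succ (l := l) (q := q) hl0
      rcases Nat.lt_or_ge s 2 with hs2 | hs2
      · interval_cases s
        · simp only [if_true, Nat.zero_le]
          push_cast
          linear_combination this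
        · simp only [if_true, le_refl, one_ne_zero, if_false]
          push_cast
          linear_combination this
      · rw [if_neg (by omega), if_neg (by omega), if_neg (by omega), if_neg (by omega)]
        ring

theorem rec_unique {w W a : ℕ → ℚ} (h0 : W 0 = a 0)
    (hW : ∀ n : ℕ, (n : ℚ) * W n = ∑ k ∈ Icc 1 n, w k * W (n - k))
    (ha : ∀ n : ℕ, (n : ℚ) * a n = FF w a n) (n : ℕ) : W n = a n := by
  induction n using Nat.strong_induction_on with
  | _ n ih =>
    rcases Nat.eq_zero_or_pos n with rfl | hn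
    · exact h0
    · have h1 := hW n
      have h2 := ha n
      rw [FF] at h2
      have h3 : ∑ k ∈ Icc 1 n, w k * W (n - k) = ∑ k ∈ Icc 1 n, w k * a (n - k) := by
        refine Finset.sum_congr rfl (fun k hk => ?_)
        rw [mem_Icc] at hk
        rw [ih (n - k) (by omega)]
      have h4 : (n : ℚ) * W n = n * a n := by rw [h1, h3, ← h2]
      have hn' : (n : ℚ) ≠ 0 := by positivity
      exact mul_left_cancel₀ hn' h4

/-! ### Counting -/

theorem reg_perm_eq (n l : ℕ) :
    (reg (Equiv.Perm (Fin n)) l : ℚ) =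
      ∑ σ : Equiv.Perm (Fin n), if l ∣ orderOf σ then (0 : ℚ) else 1 := by
  classical
  rw [reg, Nat.card_eq_fintype_card, Fintype.card_subtype, Finset.card_filter]
  push_cast
  refine Finset.sum_congr rfl (fun σ _ => ?_)
  by_cases h : l ∣ orderOf σ
  · simp [h]
  · simp [h]

theorem reg_alt_eq (n l : ℕ) :
    (reg (alternatingGroup (Fin n)) l : ℚ) =
      ∑ σ : Equiv.Perm (Fin n), if l ∣ orderOf σ then (0 : ℚ) else
        (1 + (((Equiv.Perm.sign σ : ℤˣ) : ℤ) : ℚ)) / 2 := by
  classical
  have h1 : reg (alternatingGroup (Fin n)) l =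
      Nat.card {σ : Equiv.Perm (Fin n) // Equiv.Perm.sign σ = 1 ∧ ¬ l ∣ orderOf σ} := by
    rw [reg]
    refine Nat.card_congr
      ⟨fun g => ⟨g.1.1, Equiv.Perm.mem_alternatingGroup.mp g.1.2, ?_⟩,
        fun σ => ⟨⟨σ.1, Equiv.Perm.mem_alternatingGroup.mpr σ.2.1⟩, ?_⟩, ?_, ?_⟩
    · have := g.2
      rwa [← Subgroup.orderOf_coe] at this
    · have := σ.2.2
      rw [← Subgroup.orderOf_coe]
      exact this
    · intro g; rfl
    · intro σ; rfl
  rw [h1, Nat.card_eq_fintype_card, Fintype.card_subtype, Finset.card_filter]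
  push_cast
  refine Finset.sum_congr rfl (fun σ _ => ?_)
  by_cases h : l ∣ orderOf σ
  · simp [h]
  · rcases Int.units_eq_one_or (Equiv.Perm.sign σ) with hs | hs
    · simp [h, hs]
    · have hne : ¬ ((-1 : ℤˣ) = 1) := by decide
      simp [h, hs, hne]

theorem sign_of_odd {n : ℕ} (σ : Equiv.Perm (Fin n)) (h : ¬ 2 ∣ orderOf σ) :
    Equiv.Perm.sign σ = 1 := by
  have hodd : Odd (orderOf σ) := by
    rw [← Nat.not_even_iff_odd, even_iff_two_dvd]; exact h
  have h1 : (Equiv.Perm.sign σ) ^ (orderOf σ) = 1 := by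
    rw [← map_pow, pow_orderOf_eq_one, map_one]
  rcases Int.units_eq_one_or (Equiv.Perm.sign σ) with hs | hs
  · exact hs
  · rw [hs, hodd.neg_one_pow] at h1
    rw [hs]; exact h1

theorem p_cnt : CNT := by
  classical
  intro hC
  have key1 : ∀ n l : ℕ, l.Prime →
      (reg (Equiv.Perm (Fin n)) l : ℚ) = n.factorial * aa l n := by
    intro n l hl
    have hW := hC (w1 l) (fun n =>
      (∑ σ : Equiv.Perm (Fin n), (σ.partition.parts.map (w1 l)).prod) / n.factorial)
      (fun _ => rfl)
    have h := rec_unique (a := aa l) ?_ hW (aa_rec hl.pos) n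
    · have hf : (n.factorial : ℚ) ≠ 0 := by positivity
      rw [div_eq_iff hf] at h
      rw [reg_perm_eq, mul_comm, ← h]
      exact Finset.sum_congr rfl (fun σ _ => (prod_w1 hl σ).symm)
    · have : ∑ σ : Equiv.Perm (Fin 0), (σ.partition.parts.map (w1 l)).prod = 1 := by
        rw [Fintype.sum_eq_single (1 : Equiv.Perm (Fin 0))
          (fun σ hσ => absurd (Subsingleton.elim σ 1) hσ), prod_w1 hl, orderOf_one,
          if_neg (fun h => hl.one_lt.ne' (Nat.dvd_one.mp h))]
      simp only [this]
      rw [aa_small hl.pos]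
      simp
  refine ⟨key1, ?_, ?_⟩
  · intro n
    rw [← key1 n 2 Nat.prime_two, reg_perm_eq, reg_alt_eq]
    refine Finset.sum_congr rfl (fun σ _ => ?_)
    by_cases h : 2 ∣ orderOf σ
    · simp [h]
    · rw [if_neg h, if_neg h, sign_of_odd σ h]
      norm_num
  · intro n l hn hl hl2
    have hl3 : 3 ≤ l := by
      have := hl.two_le
      omega
    have hodd : Odd l := hl.odd_of_ne_two hl2
    have hW := hC (w2 l) (fun n =>
      (∑ σ : Equiv.Perm (Fin n), (σ.partition.parts.map (w2 l)).prod) / n.factorial)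
      (fun _ => rfl)
    have h := rec_unique (a := bb l) ?_ hW (bb_rec hl3 hodd) n
    · have hf : (n.factorial : ℚ) ≠ 0 := by positivity
      rw [div_eq_iff hf] at h
      have h1 := key1 n l hl
      rw [reg_perm_eq] at h1
      have h2 : ∑ σ : Equiv.Perm (Fin n), (if l ∣ orderOf σ then (0 : ℚ) else
          (((Equiv.Perm.sign σ : ℤˣ) : ℤ) : ℚ)) = bb l n * n.factorial := by
        rw [← h]
        exact Finset.sum_congr rfl (fun σ _ => (prod_w2 hl σ).symm)
      rw [reg_alt_eq]
      have h3 : ∑ σ : Equiv.Perm (Fin n), (if l ∣ orderOf σ then (0 : ℚ) else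
          (1 + (((Equiv.Perm.sign σ : ℤˣ) : ℤ) : ℚ)) / 2) =
          (∑ σ : Equiv.Perm (Fin n), (if l ∣ orderOf σ then (0 : ℚ) else 1) +
          ∑ σ : Equiv.Perm (Fin n), (if l ∣ orderOf σ then (0 : ℚ) else
            (((Equiv.Perm.sign σ : ℤˣ) : ℤ) : ℚ))) / 2 := by
        rw [← Finset.sum_add_distrib, Finset.sum_div]
        refine Finset.sum_congr rfl (fun σ _ => ?_)
        by_cases h : l ∣ orderOf σ
        · simp [h]
        · simp [h]
      rw [h3, h1, h2]
      ring
    · have : ∑ σ : Equiv.Perm (Fin 0), (σ.partition.parts.map (w2 l)).prod = 1 := by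
        rw [Fintype.sum_eq_single (1 : Equiv.Perm (Fin 0))
          (fun σ hσ => absurd (Subsingleton.elim σ 1) hσ), prod_w2 hl, orderOf_one,
          if_neg (fun h => hl.one_lt.ne' (Nat.dvd_one.mp h))]
        simp
      simp only [this]
      have := bb_val (l := l) 0 0 hl.pos
      rw [zero_mul, zero_add] at this
      rw [this]
      simp [BB]

end Pool.Agent.Helper12.RS
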