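import Pool.Agent.Helper12.RS.LA1

/-!
# RS, S_LA
-/

namespace Pool.Agent.Helper12.RS

open Polynomial Module TensorProduct Pool.Agent.Helper51.SigLeo Pool.Agent.Helper38.RS

/-! ### From `k` to `ℤ_2` -/

theorem exists_omega {k : Type} [NormedField k] [NormedAlgebra ℚ_[2] k] {m : ℕ} {ζ : k}
    {Φ : ℤ_[2][X]} {P : (ZMod 2)[X]} (hP : PhiData m ζ Φ P) {r : ℕ} (M : Fin r → Fin r → ℤ)
    {v : Fin r → k} (hv : v ≠ 0) (hM : op M k v = ζ • v) {ι : Type} (c : ι → Fin r → ℚ_[2])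
    (hc : ∀ i, ∑ j, c i j • v j = 0) :
    ∃ (ω : Fin r → ℤ_[2]) (j₀ : Fin r), ω j₀ = 1 ∧
      (∀ j, ∑ n ∈ Finset.range m, (op M ℤ_[2])^[n] ω j = 0) ∧
      (∀ j, ∑ n ∈ Finset.range (Φ.natDegree + 1), Φ.coeff n * (op M ℤ_[2])^[n] ω j = 0) ∧
      ∀ i, ∑ j, c i j * (ω j : ℚ_[2]) = 0 := by
  obtain ⟨j₁, hj₁⟩ : ∃ j, v j ≠ 0 := by
    by_contra h
    push Not at h
    exact hv (funext h)
  obtain ⟨lam, hlam⟩ : ∃ lam : k →ₗ[ℚ_[2]] ℚ_[2], lam (v j₁) ≠ 0 := by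
    by_contra h
    push Not at h
    exact hj₁ ((Module.forall_dual_apply_eq_zero_iff ℚ_[2] (v j₁)).1 h)
  have : Nonempty (Fin r) := ⟨j₁⟩
  obtain ⟨j₀, hj₀⟩ := Finite.exists_max fun j => ‖lam (v j)‖
  have hw0 : lam (v j₀) ≠ 0 := by
    intro h
    have := hj₀ j₁
    rw [h, norm_zero] at this
    exact hlam (norm_le_zero_iff.1 this)
  let c1 : k →ₗ[ℚ_[2]] ℚ_[2] := (lam (v j₀))⁻¹ • lam
  have hc1 : ∀ x, c1 x = (lam (v j₀))⁻¹ * lam x := fun x => rfl
  have hle : ∀ j, ‖c1 (v j)‖ ≤ 1 := fun j => by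
    rw [hc1, norm_mul, norm_inv]
    have h1 := hj₀ j
    have h2 : 0 < ‖lam (v j₀)‖ := norm_pos_iff.2 hw0
    rw [inv_mul_le_iff₀ h2, mul_one]
    exact h1
  let ω : Fin r → ℤ_[2] := fun j => ⟨c1 (v j), hle j⟩
  have hω : ∀ j, (ω j : ℚ_[2]) = c1 (v j) := fun j => rfl
  have hiter : ∀ n j, (((op M ℤ_[2])^[n] ω j : ℤ_[2]) : ℚ_[2]) = c1 (ζ ^ n * v j) := by
    intro n j
    have h1 := op_iter M ((PadicInt.Coe.ringHom (p := 2) : ℤ_[2] →+* ℚ_[2]) : ℤ_[2] →+ ℚ_[2]) n ω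
    have h2 := op_iter M (c1 : k →+ ℚ_[2]) n v
    rw [op_iter_eigen M hM] at h2
    have h3 := (congrFun h1 j).symm.trans (congrFun h2 j)
    exact h3
  refine ⟨ω, j₀, ?_, ?_, ?_, ?_⟩
  · apply Subtype.ext
    change c1 (v j₀) = 1
    rw [hc1, inv_mul_cancel₀ hw0]
  · intro j
    apply Subtype.ext
    rw [PadicInt.coe_sum]
    simp only [hiter]
    rw [← map_sum, ← Finset.sum_mul, hP.prim.geom_sum_eq_zero hP.one_lt, zero_mul, map_zero]
    rfl
  · intro j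
    apply Subtype.ext
    rw [PadicInt.coe_sum]
    simp only [PadicInt.coe_mul, hiter]
    have h1 : ∀ n, ((Φ.coeff n : ℤ_[2]) : ℚ_[2]) * c1 (ζ ^ n * v j) =
        c1 ((algebraMap ℚ_[2] k (algebraMap ℤ_[2] ℚ_[2] (Φ.coeff n)) * ζ ^ n) * v j) := by
      intro n
      rw [mul_assoc, ← Algebra.smul_def, map_smul]
      rfl
    simp only [h1]
    rw [← map_sum, ← Finset.sum_mul]
    have h2 := hP.root
    rw [eval₂_eq_sum_range] at h2
    have h3 : ∑ n ∈ Finset.range (Φ.natDegree + 1),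
        algebraMap ℚ_[2] k (algebraMap ℤ_[2] ℚ_[2] (Φ.coeff n)) * ζ ^ n = 0 := h2
    rw [h3, zero_mul, map_zero]
    rfl
  · intro i
    have h1 := congrArg c1 (hc i)
    rw [map_sum, map_zero] at h1
    simp only [map_smul, smul_eq_mul] at h1
    exact h1

/-! ### Divisibility -/

section dvd

variable {r : ℕ} (M : Fin r → Fin r → ℤ)

theorem op_dvd {q : ℤ_[2]} {x : Fin r → ℤ_[2]} (h : ∀ j, q ∣ x j) (n : ℕ) :
    ∀ j, q ∣ (op M ℤ_[2])^[n] x j := by
  induction n generalizing x with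
  | zero => exact h
  | succ n ih =>
    rw [Function.iterate_succ_apply]
    refine ih fun j => ?_
    rw [op_apply]
    refine Finset.dvd_sum fun i _ => ?_
    rw [zsmul_eq_mul]
    exact (h i).mul_left _

theorem int_dvd {z : ℤ} (h : (2 : ℤ_[2]) ∣ (z : ℤ_[2])) : (2 : ℤ) ∣ z := by
  have h1 : ((2 : ℕ) : ℤ_[2]) ∣ (z : ℤ_[2]) := by exact_mod_cast h
  rw [← PadicInt.norm_lt_one_iff_dvd, PadicInt.norm_int_lt_one_iff_dvd] at h1
  exact_mod_cast h1

theorem norm_le_of_dvd {x : ℤ_[2]} {n : ℕ} (h : (2 : ℤ_[2]) ^ n ∣ x) : ‖x‖ ≤ (1 / 2 : ℝ) ^ n := by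
  obtain ⟨y, rfl⟩ := h
  rw [norm_mul, norm_pow]
  have h1 : ‖(2 : ℤ_[2])‖ = 1 / 2 := by
    have := PadicInt.norm_p (p := 2)
    rw [Nat.cast_ofNat, Nat.cast_ofNat] at this
    rw [this]
    norm_num
  rw [h1]
  exact mul_le_of_le_one_right (by positivity) (PadicInt.norm_le_one y)

theorem supp_dvd {k : Type} [NormedField k] [NormedAlgebra ℚ_[2] k] {m : ℕ} {ζ : k}
    {Φ : ℤ_[2][X]} {P : (ZMod 2)[X]} (hP : PhiData m ζ Φ P) {ω : Fin r → ℤ_[2]}
    (h : ∀ j, ∑ n ∈ Finset.range (Φ.natDegree + 1), Φ.coeff n * (op M ℤ_[2])^[n] ω j = 0)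
    (j : Fin r) : (2 : ℤ_[2]) ∣ ∑ n ∈ P.support, (op M ℤ_[2])^[n] ω j := by
  have hsub : P.support ⊆ Finset.range (Φ.natDegree + 1) := by
    rw [hP.map]
    intro n hn
    rw [Finset.mem_range]
    have h1 := le_natDegree_of_mem_supp n hn
    have h2 := natDegree_map_le (f := (PadicInt.toZMod (p := 2))) (p := Φ)
    omega
  have h1 : ∑ n ∈ P.support, (op M ℤ_[2])^[n] ω j =
      ∑ n ∈ Finset.range (Φ.natDegree + 1),
        (if n ∈ P.support then (1 : ℤ_[2]) else 0) * (op M ℤ_[2])^[n] ω j := by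
    simp only [ite_mul, one_mul, zero_mul]
    rw [Finset.sum_ite_mem, Finset.inter_eq_right.2 hsub]
  have h2 : ∑ n ∈ P.support, (op M ℤ_[2])^[n] ω j =
      ∑ n ∈ Finset.range (Φ.natDegree + 1),
        ((if n ∈ P.support then (1 : ℤ_[2]) else 0) - Φ.coeff n) * (op M ℤ_[2])^[n] ω j := by
    simp only [sub_mul]
    rw [Finset.sum_sub_distrib, h j, sub_zero, h1]
  rw [h2]
  refine Finset.dvd_sum fun n _ => Dvd.dvd.mul_right ?_ _
  have h3 : ((2 : ℕ) : ℤ_[2]) ∣ (if n ∈ P.support then (1 : ℤ_[2]) else 0) - Φ.coeff n := by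
    rw [← PadicInt.norm_lt_one_iff_dvd, ← PadicInt.mem_nonunits,
      ← IsLocalRing.mem_maximalIdeal, ← PadicInt.ker_toZMod, RingHom.mem_ker, map_sub]
    have h4 : PadicInt.toZMod (Φ.coeff n) = P.coeff n := by
      rw [hP.map, coeff_map]
    rw [h4]
    split_ifs with h5
    · rw [Polynomial.mem_support_iff] at h5
      have h6 : ∀ x : ZMod 2, x ≠ 0 → x = 1 := by decide
      rw [h6 _ h5, map_one, sub_self]
    · rw [Polynomial.notMem_support_iff] at h5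
      rw [h5, map_zero, sub_self]
  exact_mod_cast h3

end dvd

/-! ### The operator `m - ∑ δ^n` -/

/-- The operator `m - ∑_{n < m} δ^n`. -/
def Hh {A : Type*} [AddCommGroup A] (m : ℕ) (δ : A →+ A) : A →+ A where
  toFun x := m • x - ∑ n ∈ Finset.range m, δ^[n] x
  map_zero' := by simp
  map_add' x y := by
    simp only [iterate_map_add, Finset.sum_add_distrib, smul_add]
    abel

theorem Hh_apply {A : Type*} [AddCommGroup A] (m : ℕ) (δ : A →+ A) (x : A) :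
    Hh m δ x = m • x - ∑ n ∈ Finset.range m, δ^[n] x := rfl

theorem iter_sum {A : Type*} [AddCommGroup A] (δ : A →+ A) (n : ℕ) {ι : Type*} (s : Finset ι)
    (g : ι → A) : δ^[n] (∑ i ∈ s, g i) = ∑ i ∈ s, δ^[n] (g i) := by
  induction n generalizing g with
  | zero => rfl
  | succ n ih =>
    rw [Function.iterate_succ_apply, map_sum, ih]
    rfl

theorem iter_nsmul {A : Type*} [AddCommGroup A] (δ : A →+ A) (n m : ℕ) (x : A) :
    δ^[n] (m • x) = m • δ^[n] x := by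
  induction n generalizing x with
  | zero => rfl
  | succ n ih => rw [Function.iterate_succ_apply, map_nsmul, ih]; rfl

theorem iter_comm {A : Type*} [AddCommGroup A] (m : ℕ) (δ : A →+ A) (n : ℕ) (x : A) :
    δ^[n] (Hh m δ x) = Hh m δ (δ^[n] x) := by
  rw [Hh_apply, Hh_apply, iterate_map_sub, iter_nsmul, iter_sum]
  congr 1
  refine Finset.sum_congr rfl fun i _ => ?_
  rw [← Function.iterate_add_apply, ← Function.iterate_add_apply, add_comm]

/-- Torsion elements are sent to `2 A`. -/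
theorem Hh_torsion {A : Type*} [AddCommGroup A] (m : ℕ) (δ : A →+ A)
    (h2 : ∀ (x : A) (n : ℕ), 2 ^ n • x = 0 → δ x = x) {τ : A} {n : ℤ} (hn : n ≠ 0)
    (h : n • τ = 0) : ∃ b, Hh m δ τ = 2 • b := by
  have h1 : n.natAbs • τ = 0 := by
    rcases Int.natAbs_eq n with h3 | h3
    · rw [← natCast_zsmul, ← h3, h]
    · rw [← natCast_zsmul]
      rw [h3, neg_smul, neg_eq_zero] at h
      exact h
  obtain ⟨a, q, hq, hnq⟩ := Nat.exists_eq_two_pow_mul_odd (Int.natAbs_ne_zero.2 hn)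
  rw [hnq, mul_smul] at h1
  have h3 : δ (q • τ) = q • τ := h2 _ a h1
  have h4 : ∀ n, δ^[n] (q • τ) = q • τ := fun n => Function.iterate_fixed h3 n
  have h5 : q • Hh m δ τ = 0 := by
    rw [← map_nsmul, Hh_apply]
    simp only [h4]
    rw [Finset.sum_const, Finset.card_range, sub_self]
  obtain ⟨e, rfl⟩ := hq
  refine ⟨-(e • Hh m δ τ), ?_⟩
  rw [add_smul, one_smul, mul_smul] at h5
  rw [smul_neg, ← sub_eq_zero, sub_neg_eq_add, add_comm]
  exact h5

theorem s_la : S_LA := by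
  intro k _ _ m ζ Φ P hP A _ _ δ hδ h2 ι _ f z hz hδz hfz
  obtain ⟨r, π, s, hs, hk⟩ := exists_coord A
  let M := mat π s δ
  have hv : vec k π z ≠ 0 := vec_ne hs hk hz
  have hM : op M k (vec k π z) = ζ • vec k π z := by
    rw [← vec_ext hs hk, hδz]
    funext j
    simp [vec]
  let c : ι → Fin r → ℚ_[2] := fun i j => f i (s (Pi.single j 1))
  have hc : ∀ i, ∑ j, c i j • vec k π z j = 0 := fun i => by
    rw [← ext_f hs hk (f i) z]
    exact hfz i
  obtain ⟨ω, j₀, hω1, hωm, hωΦ, hωc⟩ := exists_omega hP M hv hM c hc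
  -- bound
  obtain ⟨c₀, hc₀⟩ : ∃ c₀ : ℕ, ∀ i j, ‖c i j‖ ≤ 2 ^ c₀ := by
    obtain ⟨B, hB⟩ := (Set.finite_range (fun p : ι × Fin r => ‖c p.1 p.2‖)).bddAbove
    obtain ⟨n, hn⟩ := pow_unbounded_of_one_lt B (one_lt_two (α := ℝ))
    exact ⟨n, fun i j => (hB ⟨(i, j), rfl⟩).trans hn.le⟩
  -- approximations
  let t : ℕ → Fin r → ℤ := fun N j => ((ω j).appr (N + c₀ + 1) : ℤ)
  have ht : ∀ N j, (2 : ℤ_[2]) ^ (N + c₀ + 1) ∣ ω j - (t N j : ℤ_[2]) := by
    intro N j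
    have h1 := PadicInt.appr_spec (N + c₀ + 1) (ω j)
    rw [Ideal.mem_span_singleton, Nat.cast_ofNat] at h1
    have h3 : ((t N j : ℤ) : ℤ_[2]) = ((ω j).appr (N + c₀ + 1) : ℤ_[2]) := by
      simp [t]
    rw [h3]
    exact h1
  have ht2 : ∀ N j, (2 : ℤ_[2]) ∣ ω j - (t N j : ℤ_[2]) := fun N j =>
    (dvd_pow_self _ (Nat.succ_ne_zero _)).trans (ht N j)
  let u : ℕ → A := fun N => Hh m δ (s (t N))
  -- coordinates of u
  have hcast : ∀ (n : ℕ) (x : Fin r → ℤ) (j : Fin r),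
      (((op M ℤ)^[n] x j : ℤ) : ℤ_[2]) = (op M ℤ_[2])^[n] (fun j => (x j : ℤ_[2])) j := by
    intro n x j
    exact (congrFun (op_iter M (Int.castAddHom ℤ_[2]) n x) j).symm
  have hsplit : ∀ (n N : ℕ) (j : Fin r),
      (2 : ℤ_[2]) ^ (N + c₀ + 1) ∣
        (op M ℤ_[2])^[n] ω j - (((op M ℤ)^[n] (t N) j : ℤ) : ℤ_[2]) := by
    intro n N j
    rw [hcast]
    have h1 : ω = (fun j => ω j - (t N j : ℤ_[2])) + (fun j => (t N j : ℤ_[2])) := by
      funext j; simp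
    have h3 := op_iter_add M n (fun j => ω j - (t N j : ℤ_[2])) (fun j => (t N j : ℤ_[2]))
    rw [← h1] at h3
    rw [h3, Pi.add_apply, add_sub_cancel_right]
    exact op_dvd M (ht N) n j
  have hpu : ∀ N j, (2 : ℤ_[2]) ^ (N + c₀ + 1) ∣
      (m : ℤ_[2]) * ω j - ((π (u N) j : ℤ) : ℤ_[2]) := by
    intro N j
    have h1 : π (u N) j = m * t N j - ∑ n ∈ Finset.range m, (op M ℤ)^[n] (t N) j := by
      change π (Hh m δ (s (t N))) j = _
      rw [Hh_apply, map_sub, map_nsmul, map_sum, hs, Pi.sub_apply, Pi.smul_apply,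
        Finset.sum_apply, nsmul_eq_mul]
      congr 1
      refine Finset.sum_congr rfl fun n _ => ?_
      rw [pi_iter hs hk, hs]
    rw [h1]
    have h3 : (m : ℤ_[2]) * ω j - ((m * t N j - ∑ n ∈ Finset.range m, (op M ℤ)^[n] (t N) j : ℤ) :
        ℤ_[2]) = (m : ℤ_[2]) * (ω j - (t N j : ℤ_[2])) -
          ∑ n ∈ Finset.range m, ((op M ℤ_[2])^[n] ω j -
            (((op M ℤ)^[n] (t N) j : ℤ) : ℤ_[2])) := by
      rw [Finset.sum_sub_distrib, hωm j]
      push_cast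
      ring
    rw [h3]
    exact dvd_sub ((ht N j).mul_left _) (Finset.dvd_sum fun n _ => hsplit n N j)
  refine ⟨u, ?_, ?_, ?_, ?_⟩
  · intro N
    have h1 : ∀ j, ∃ d : ℤ, t N j - t 0 j = 2 * d := fun j => by
      have h3 : (2 : ℤ_[2]) ∣ ((t N j - t 0 j : ℤ) : ℤ_[2]) := by
        have := dvd_sub (ht2 0 j) (ht2 N j)
        rw [sub_sub_sub_cancel_left] at this
        push_cast
        exact this
      exact int_dvd h3
    choose d hd using h1
    refine ⟨Hh m δ (s d), ?_⟩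
    change Hh m δ (s (t N)) = Hh m δ (s (t 0)) + 2 • Hh m δ (s d)
    rw [← map_nsmul, ← map_nsmul, ← map_add, ← map_add]
    congr 2
    funext j
    have := hd j
    change t N j = t 0 j + (2 : ℕ) • d j
    rw [nsmul_eq_mul]
    push_cast
    linarith
  · rintro ⟨b, hb⟩
    have h1 := ht2 0 j₀
    have h3 := (dvd_pow_self (2 : ℤ_[2]) (Nat.succ_ne_zero (0 + c₀))).trans (hpu 0 j₀)
    rw [hb, map_nsmul, hω1, mul_one] at h3
    have h4 : (2 : ℤ_[2]) ∣ ((m : ℤ) : ℤ_[2]) := by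
      have h5 : (2 : ℤ_[2]) ∣ (((2 • π b) j₀ : ℤ) : ℤ_[2]) := by
        rw [Pi.smul_apply, nsmul_eq_mul]
        push_cast
        exact dvd_mul_right _ _
      have h6 := dvd_add h3 h5
      rw [sub_add_cancel] at h6
      exact_mod_cast h6
    have h7 := int_dvd h4
    have h8 := hP.odd
    rw [← Nat.not_even_iff_odd, even_iff_two_dvd] at h8
    exact h8 (by exact_mod_cast h7)
  · let y : A := ∑ n ∈ P.support, δ^[n] (s (t 0))
    have hy : ∑ j ∈ P.support, δ^[j] (u 0) = Hh m δ y := by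
      change ∑ j ∈ P.support, δ^[j] (Hh m δ (s (t 0))) = _
      rw [map_sum]
      exact Finset.sum_congr rfl fun n _ => iter_comm m δ n _
    have h1 : ∀ j, ∃ d : ℤ, π y j = 2 * d := fun j => by
      refine int_dvd ?_
      have h3 : π y j = ∑ n ∈ P.support, (op M ℤ)^[n] (t 0) j := by
        change π (∑ n ∈ P.support, δ^[n] (s (t 0))) j = _
        rw [map_sum, Finset.sum_apply]
        refine Finset.sum_congr rfl fun n _ => ?_
        rw [pi_iter hs hk, hs]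
      rw [h3]
      have h4 : ((∑ n ∈ P.support, (op M ℤ)^[n] (t 0) j : ℤ) : ℤ_[2]) =
          ∑ n ∈ P.support, (op M ℤ_[2])^[n] ω j -
          ∑ n ∈ P.support, ((op M ℤ_[2])^[n] ω j -
            (((op M ℤ)^[n] (t 0) j : ℤ) : ℤ_[2])) := by
        rw [Finset.sum_sub_distrib, sub_sub_cancel]
        push_cast
        rfl
      rw [h4]
      refine dvd_sub (supp_dvd M hP hωΦ j) (Finset.dvd_sum fun n _ => ?_)
      exact (dvd_pow_self (2 : ℤ_[2]) (Nat.succ_ne_zero (0 + c₀))).trans (hsplit n 0 j)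
    choose d hd using h1
    have h3 : π (y - 2 • s d) = 0 := by
      rw [map_sub, map_nsmul, hs]
      funext j
      rw [Pi.sub_apply, Pi.smul_apply, hd j, nsmul_eq_mul]
      simp
    obtain ⟨n, hn, hn0⟩ := hk _ h3
    obtain ⟨b, hb⟩ := Hh_torsion m δ h2 hn hn0
    refine ⟨b + Hh m δ (s d), ?_⟩
    rw [hy, smul_add, ← hb, map_sub, map_nsmul, sub_add_cancel]
  · intro N i
    have h1 := hom_coord hs hk (V := ℚ_[2]) (fun n v hn hv => ?_) (f i) (u N)
    · have h3 : f i (u N) = -∑ j, c i j *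
          (((m : ℤ_[2]) * ω j - ((π (u N) j : ℤ) : ℤ_[2]) : ℤ_[2]) : ℚ_[2]) := by
        have h4 : ∑ j, c i j * (((m : ℤ_[2]) * ω j - ((π (u N) j : ℤ) : ℤ_[2]) : ℤ_[2]) : ℚ_[2]) =
            (m : ℚ_[2]) * ∑ j, c i j * (ω j : ℚ_[2]) -
              ∑ j, π (u N) j • c i j := by
          rw [Finset.mul_sum, ← Finset.sum_sub_distrib]
          refine Finset.sum_congr rfl fun j _ => ?_
          rw [zsmul_eq_mul]
          push_cast
          ring
        rw [h4, hωc i, mul_zero, zero_sub, neg_neg]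
        exact h1
      rw [h3, norm_neg]
      refine IsUltrametricDist.norm_sum_le_of_forall_le_of_nonneg (by positivity) fun j _ => ?_
      rw [norm_mul]
      have h5 : ‖(((m : ℤ_[2]) * ω j - ((π (u N) j : ℤ) : ℤ_[2]) : ℤ_[2]) : ℚ_[2])‖ ≤
          (1 / 2 : ℝ) ^ (N + c₀ + 1) := norm_le_of_dvd (hpu N j)
      calc ‖c i j‖ * ‖(((m : ℤ_[2]) * ω j - ((π (u N) j : ℤ) : ℤ_[2]) : ℤ_[2]) : ℚ_[2])‖
          ≤ 2 ^ c₀ * (1 / 2 : ℝ) ^ (N + c₀ + 1) :=
            mul_le_mul (hc₀ i j) h5 (norm_nonneg _) (by positivity)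
        _ = (1 / 2 : ℝ) ^ N * (1 / 2) := by
            rw [pow_succ, pow_add]
            have : (2 : ℝ) ^ c₀ * (1 / 2) ^ c₀ = 1 := by rw [← mul_pow]; norm_num
            linear_combination ((1 / 2 : ℝ) ^ N * (1 / 2)) * this
        _ ≤ (1 / 2 : ℝ) ^ N := by
            have : 0 < (1 / 2 : ℝ) ^ N := by positivity
            linarith
    · exact (smul_eq_zero.1 hv).resolve_left hn

end Pool.Agent.Helper12.RS
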