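import Pool.Agent.Helper38.RS.Goals1

/-!
# RS, S_LA, part 1: coordinates of a finitely generated abelian group
-/

namespace Pool.Agent.Helper12.RS

open Polynomial Module TensorProduct Pool.Agent.Helper51.SigLeo Pool.Agent.Helper38.RS

section op

variable {r : ℕ}

/-- The action of an integer matrix on vectors with coordinates in an abelian group. -/
def op (M : Fin r → Fin r → ℤ) (V : Type*) [AddCommGroup V] : (Fin r → V) →+ (Fin r → V) where
  toFun v := fun i => ∑ j, M i j • v j
  map_zero' := by funext i; simp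
  map_add' := by intro v w; funext i; simp [smul_add, Finset.sum_add_distrib]

theorem op_apply (M : Fin r → Fin r → ℤ) (V : Type*) [AddCommGroup V] (v : Fin r → V)
    (i : Fin r) : op M V v i = ∑ j, M i j • v j := rfl

theorem op_comp (M : Fin r → Fin r → ℤ) {V V' : Type*} [AddCommGroup V] [AddCommGroup V']
    (c : V →+ V') (v : Fin r → V) : op M V' (fun j => c (v j)) = fun j => c (op M V v j) := by
  funext i
  rw [op_apply, op_apply, map_sum]
  exact Finset.sum_congr rfl fun j _ => (map_zsmul c _ _).symm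

theorem op_iter (M : Fin r → Fin r → ℤ) {V V' : Type*} [AddCommGroup V] [AddCommGroup V']
    (c : V →+ V') (n : ℕ) (v : Fin r → V) :
    (op M V')^[n] (fun j => c (v j)) = fun j => c ((op M V)^[n] v j) := by
  induction n generalizing v with
  | zero => rfl
  | succ n ih =>
    rw [Function.iterate_succ_apply, Function.iterate_succ_apply, op_comp, ih]

theorem op_iter_add (M : Fin r → Fin r → ℤ) {V : Type*} [AddCommGroup V]
    (n : ℕ) (v w : Fin r → V) : (op M V)^[n] (v + w) = (op M V)^[n] v + (op M V)^[n] w := by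
  induction n generalizing v w with
  | zero => rfl
  | succ n ih =>
    rw [Function.iterate_succ_apply, Function.iterate_succ_apply, Function.iterate_succ_apply,
      map_add, ih]

theorem op_iter_eigen (M : Fin r → Fin r → ℤ) {k : Type*} [Field k] {v : Fin r → k} {ζ : k}
    (h : op M k v = ζ • v) (n : ℕ) : (op M k)^[n] v = ζ ^ n • v := by
  induction n with
  | zero => simp
  | succ n ih =>
    rw [Function.iterate_succ_apply, h]
    have h1 := op_iter M (AddMonoidHom.mulLeft ζ) n v
    have h2 : (fun j => AddMonoidHom.mulLeft ζ (v j)) = ζ • v := by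
      funext j; simp
    rw [h2] at h1
    rw [h1, ih]
    funext j
    simp [pow_succ]
    ring

end op

/-- Coordinates for a finitely generated abelian group. -/
theorem exists_coord (A : Type) [AddCommGroup A] [Module.Finite ℤ A] :
    ∃ (r : ℕ) (π : A →+ (Fin r → ℤ)) (s : (Fin r → ℤ) →+ A), (∀ t, π (s t) = t) ∧
      ∀ x, π x = 0 → ∃ n : ℤ, n ≠ 0 ∧ n • x = 0 := by
  let T := Submodule.torsion ℤ A
  have : Module.Free ℤ (A ⧸ T) := inferInstance
  let b := Module.finBasis ℤ (A ⧸ T)
  let e := b.equivFun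
  let π : A →ₗ[ℤ] (Fin (finrank ℤ (A ⧸ T)) → ℤ) := e.toLinearMap ∘ₗ T.mkQ
  have hπ : Function.Surjective π := e.surjective.comp T.mkQ_surjective
  obtain ⟨s, hs⟩ := Module.projective_lifting_property π LinearMap.id hπ
  refine ⟨finrank ℤ (A ⧸ T), π.toAddMonoidHom, s.toAddMonoidHom, fun t => ?_, fun x hx => ?_⟩
  · exact LinearMap.congr_fun hs t
  · have h1 : T.mkQ x = 0 := by
      apply e.injective
      rw [map_zero]
      exact hx
    rw [Submodule.mkQ_apply, Submodule.Quotient.mk_eq_zero] at h1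
    obtain ⟨a, ha⟩ := (Submodule.mem_torsion_iff x).1 h1
    exact ⟨a, nonZeroDivisors.ne_zero a.2, ha⟩

section coord

variable {A : Type} [AddCommGroup A] {r : ℕ} {π : A →+ (Fin r → ℤ)} {s : (Fin r → ℤ) →+ A}

theorem ker_sub (hs : ∀ t, π (s t) = t) (x : A) : π (x - s (π x)) = 0 := by
  rw [map_sub, hs, sub_self]

theorem s_eq (t : Fin r → ℤ) : s t = ∑ j, t j • s (Pi.single j 1) := by
  have h : t = ∑ j, t j • (Pi.single j 1 : Fin r → ℤ) := by
    funext i
    simp [Finset.sum_apply, Pi.single_apply]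
  conv_lhs => rw [h]
  rw [map_sum]
  exact Finset.sum_congr rfl fun j _ => map_zsmul s _ _

/-- A homomorphism to a torsion free group factors through the coordinates. -/
theorem hom_coord (hs : ∀ t, π (s t) = t) (hk : ∀ x, π x = 0 → ∃ n : ℤ, n ≠ 0 ∧ n • x = 0)
    {V : Type*} [AddCommGroup V] (hV : ∀ (n : ℤ) (v : V), n ≠ 0 → n • v = 0 → v = 0)
    (g : A →+ V) (x : A) : g x = ∑ j, π x j • g (s (Pi.single j 1)) := by
  obtain ⟨n, hn, h⟩ := hk _ (ker_sub hs x)
  have h1 : g (x - s (π x)) = 0 := by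
    refine hV n _ hn ?_
    rw [← map_zsmul, h, map_zero]
  have h2 : g x = g (s (π x)) := by
    rw [map_sub, sub_eq_zero] at h1
    exact h1
  rw [h2, s_eq (π x), map_sum]
  exact Finset.sum_congr rfl fun j _ => map_zsmul g _ _

variable (π s) in
/-- The matrix of an endomorphism. -/
def mat (δ : A →+ A) (i j : Fin r) : ℤ := π (δ (s (Pi.single j 1))) i

theorem pi_delta (hs : ∀ t, π (s t) = t) (hk : ∀ x, π x = 0 → ∃ n : ℤ, n ≠ 0 ∧ n • x = 0)
    (δ : A →+ A) (x : A) : π (δ x) = op (mat π s δ) ℤ (π x) := by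
  have h := hom_coord hs hk (V := Fin r → ℤ) (fun n v hn hv => ?_) (π.comp δ) x
  · funext i
    rw [op_apply]
    have h1 := congrFun h i
    rw [Finset.sum_apply] at h1
    change π (δ x) i = _ at h1
    rw [h1]
    refine Finset.sum_congr rfl fun j _ => ?_
    simp [mat, mul_comm]
  · exact (smul_eq_zero.1 hv).resolve_left hn

theorem pi_iter (hs : ∀ t, π (s t) = t) (hk : ∀ x, π x = 0 → ∃ n : ℤ, n ≠ 0 ∧ n • x = 0)
    (δ : A →+ A) (n : ℕ) (x : A) : π (δ^[n] x) = (op (mat π s δ) ℤ)^[n] (π x) := by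
  induction n generalizing x with
  | zero => rfl
  | succ n ih => rw [Function.iterate_succ_apply, Function.iterate_succ_apply, ih, pi_delta hs hk]

end coord

section ext

set_option linter.unusedSectionVars false

variable {k : Type} [NormedField k] [NormedAlgebra ℚ_[2] k] {A : Type} [AddCommGroup A]

theorem k_char : CharZero k := charZero_of_injective_algebraMap (algebraMap ℚ_[2] k).injective

theorem extHom_tmul (f : A →+ k) (c : k) (a : A) : extHom f (c ⊗ₜ[ℤ] a) = c * f a := by
  unfold extHom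
  rw [LinearMap.liftBaseChange_tmul]
  rfl

theorem extEnd_tmul (f : A →+ A) (c : k) (a : A) :
    extEnd f (c ⊗ₜ[ℤ] a) = c ⊗ₜ[ℤ] (f a) := by
  unfold extEnd
  rw [LinearMap.baseChange_tmul]
  rfl

variable {r : ℕ} {π : A →+ (Fin r → ℤ)} {s : (Fin r → ℤ) →+ A}

variable (k π) in
/-- The coordinates in `k`. -/
def lc (j : Fin r) : A →+ k :=
  (Int.castAddHom k).comp ((Pi.evalAddMonoidHom (fun _ : Fin r => ℤ) j).comp π)

theorem lc_apply (j : Fin r) (a : A) : lc k π j a = ((π a j : ℤ) : k) := rfl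

variable (k π) in
/-- The vector of the coordinates of an element of `k ⊗ A`. -/
noncomputable def vec (z : k ⊗[ℤ] A) : Fin r → k := fun j => extHom (lc k π j) z

theorem tmul_torsion (c : k) {a : A} {n : ℤ} (hn : n ≠ 0) (h : n • a = 0) :
    c ⊗ₜ[ℤ] a = 0 := by
  have := k_char (k := k)
  have hn' : (n : k) ≠ 0 := by exact_mod_cast hn
  have h1 : c = n • ((n : k)⁻¹ * c) := by
    rw [zsmul_eq_mul, mul_inv_cancel_left₀ hn']
  rw [h1, TensorProduct.smul_tmul, h, TensorProduct.tmul_zero]

theorem eq_sum (hs : ∀ t, π (s t) = t) (hk : ∀ x, π x = 0 → ∃ n : ℤ, n ≠ 0 ∧ n • x = 0)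
    (z : k ⊗[ℤ] A) : z = ∑ j, vec k π z j ⊗ₜ[ℤ] s (Pi.single j 1) := by
  induction z using TensorProduct.induction_on with
  | zero => simp [vec]
  | tmul c a =>
    obtain ⟨n, hn, h⟩ := hk _ (ker_sub hs a)
    have h1 : c ⊗ₜ[ℤ] a = c ⊗ₜ[ℤ] (s (π a)) := by
      rw [← sub_eq_zero, ← TensorProduct.tmul_sub]
      exact tmul_torsion c hn h
    have h2 : ∀ j, vec k π (c ⊗ₜ[ℤ] a) j = c * ((π a j : ℤ) : k) := fun j => by
      unfold vec
      rw [extHom_tmul, lc_apply]
    simp only [h2]
    rw [h1, s_eq (π a), TensorProduct.tmul_sum]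
    refine Finset.sum_congr rfl fun j _ => ?_
    rw [← TensorProduct.smul_tmul, zsmul_eq_mul, mul_comm]
  | add x y hx hy =>
    conv_lhs => rw [hx, hy]
    rw [← Finset.sum_add_distrib]
    refine Finset.sum_congr rfl fun j _ => ?_
    rw [← TensorProduct.add_tmul]
    congr 1
    unfold vec
    rw [map_add]

theorem vec_ne (hs : ∀ t, π (s t) = t) (hk : ∀ x, π x = 0 → ∃ n : ℤ, n ≠ 0 ∧ n • x = 0)
    {z : k ⊗[ℤ] A} (hz : z ≠ 0) : vec k π z ≠ 0 := by
  intro h
  apply hz
  rw [eq_sum hs hk z, h]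
  simp

theorem vec_ext (hs : ∀ t, π (s t) = t) (hk : ∀ x, π x = 0 → ∃ n : ℤ, n ≠ 0 ∧ n • x = 0)
    (δ : A →+ A) (z : k ⊗[ℤ] A) :
    vec k π (extEnd δ z) = op (mat π s δ) k (vec k π z) := by
  induction z using TensorProduct.induction_on with
  | zero => funext j; simp [vec, op_apply]
  | tmul c a =>
    funext i
    rw [op_apply]
    unfold vec
    simp only [extEnd_tmul, extHom_tmul, lc_apply]
    rw [pi_delta hs hk, op_apply]
    push_cast
    rw [Finset.mul_sum]
    refine Finset.sum_congr rfl fun j _ => ?_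
    simp only [zsmul_eq_mul, smul_eq_mul, Int.cast_mul]
    ring
  | add x y hx hy =>
    have h1 : ∀ u w : k ⊗[ℤ] A, vec k π (u + w) = vec k π u + vec k π w := fun u w => by
      funext j; simp [vec]
    rw [map_add, h1, h1, map_add, hx, hy]

theorem ext_f (hs : ∀ t, π (s t) = t) (hk : ∀ x, π x = 0 → ∃ n : ℤ, n ≠ 0 ∧ n • x = 0)
    (f : A →+ ℚ_[2]) (z : k ⊗[ℤ] A) :
    extHom (((algebraMap ℚ_[2] k : ℚ_[2] →+* k) : ℚ_[2] →+ k).comp f) z =
      ∑ j, f (s (Pi.single j 1)) • vec k π z j := by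
  induction z using TensorProduct.induction_on with
  | zero => simp [vec]
  | tmul c a =>
    rw [extHom_tmul]
    have h1 := hom_coord hs hk (V := ℚ_[2]) (fun n v hn hv => ?_) f a
    · change c * (algebraMap ℚ_[2] k) (f a) = _
      rw [h1, map_sum, Finset.mul_sum]
      refine Finset.sum_congr rfl fun j _ => ?_
      unfold vec
      rw [extHom_tmul, lc_apply, map_zsmul, zsmul_eq_mul]
      rw [Algebra.smul_def]
      ring
    · exact (smul_eq_zero.1 hv).resolve_left hn
  | add x y hx hy =>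
    rw [map_add, hx, hy, ← Finset.sum_add_distrib]
    refine Finset.sum_congr rfl fun j _ => ?_
    unfold vec
    rw [map_add, smul_add]

end ext

end Pool.Agent.Helper12.RS
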